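import Mathlib

/-!
Definitions: Weil numbers in a Galois number field `K` with a valuation `v`, the inner product of
their slopes, the space `M ⊗ U ⊗ Λ V` with its Frobenius, its Tate classes and the known classes.
-/

namespace Pool.Agent.H61.SB

open scoped TensorProduct

/-- `x` and `y` are equal up to a root of unity (some positive powers agree) -/
def Sim {K : Type*} [Field K] (x y : K) : Prop := ∃ n : ℕ, 0 < n ∧ x ^ n = y ^ n

/-- `x` is a Weil `q`-number of weight `w`: an algebraic integer all of whose complex absolute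
values are `q ^ (w / 2)` -/
def IsWeil {K : Type*} [Field K] (q w : ℕ) (x : K) : Prop :=
  IsIntegral ℤ x ∧ ∀ ψ : K →+* ℂ, ‖ψ x‖ ^ 2 = (q : ℝ) ^ w

section slope
variable {K : Type*} [Field K] [NumberField K]

/-- the function `σ ↦ 2 v(σ x) - w` on the Galois group, for `x` of weight `w` -/
noncomputable def sl (v : AddValuation K (WithTop ℚ)) (w : ℕ) (x : K) (σ : K ≃ₐ[ℚ] K) : ℚ :=
  2 * (v (σ x)).untopD 0 - w

/-- the inner product of the slopes of `x`, of weight `w`, and `y`, of weight `w'`: the mean over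
the Galois group of `(2 v(σ x) - w) (2 v(σ y) - w')` -/
noncomputable def ip (v : AddValuation K (WithTop ℚ)) (w : ℕ) (x : K) (w' : ℕ) (y : K) : ℚ :=
  (∑ σ : K ≃ₐ[ℚ] K, sl v w x σ * sl v w' y σ) / Fintype.card (K ≃ₐ[ℚ] K)

end slope

section space
variable {C : Type*} [Field C]

/-- `x` is a Tate class of weight `m` for the Frobenius `F`: after a finite extension of the
ground field, `F` multiplies `x` by `q ^ (m / 2)` -/
def IsTate (q m : ℕ) {W : Type*} [AddCommGroup W] [Module C W] (F : Module.End C W) (x : W) :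
    Prop :=
  ∃ n : ℕ, 0 < n ∧ (F ^ (2 * n)) x = (q : C) ^ (m * n) • x

variable {M U V : Type*} [AddCommGroup M] [Module C M] [AddCommGroup U] [Module C U]
  [AddCommGroup V] [Module C V]

/-- the Frobenius of `U ⊗ Λ V` -/
noncomputable def frobU (FU : Module.End C U) (FV : Module.End C V) :
    Module.End C (U ⊗[C] ExteriorAlgebra C V) :=
  TensorProduct.map FU (ExteriorAlgebra.map FV).toLinearMap

/-- the Frobenius of `M ⊗ (U ⊗ Λ V)` -/
noncomputable def frob (FM : Module.End C M) (FU : Module.End C U) (FV : Module.End C V) :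
    Module.End C (M ⊗[C] (U ⊗[C] ExteriorAlgebra C V)) :=
  TensorProduct.map FM (frobU FU FV)

/-- the subspace `U ⊗ Λ^k V` of `U ⊗ Λ V` -/
noncomputable def degU (C U V : Type*) [Field C] [AddCommGroup U] [Module C U] [AddCommGroup V]
    [Module C V] (k : ℕ) : Submodule C (U ⊗[C] ExteriorAlgebra C V) :=
  LinearMap.range (TensorProduct.map (LinearMap.id : U →ₗ[C] U) (⋀[C]^k V).subtype)

/-- the subspace `M ⊗ (U ⊗ Λ^k V)` of `M ⊗ (U ⊗ Λ V)` -/
noncomputable def deg (C M U V : Type*) [Field C] [AddCommGroup M] [Module C M] [AddCommGroup U]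
    [Module C U] [AddCommGroup V] [Module C V] (k : ℕ) :
    Submodule C (M ⊗[C] (U ⊗[C] ExteriorAlgebra C V)) :=
  LinearMap.range (TensorProduct.map (LinearMap.id : M →ₗ[C] M) (degU C U V k).subtype)

/-- multiplication by `z` in `Λ V` -/
noncomputable def mulBy (M U : Type*) {V : Type*} [AddCommGroup M] [Module C M] [AddCommGroup U]
    [Module C U] [AddCommGroup V] [Module C V] (z : ExteriorAlgebra C V) :
    Module.End C (M ⊗[C] (U ⊗[C] ExteriorAlgebra C V)) :=
  TensorProduct.map (LinearMap.id : M →ₗ[C] M)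
    (TensorProduct.map (LinearMap.id : U →ₗ[C] U) (LinearMap.mulRight C z))

/-- the least subspace of `M ⊗ U ⊗ Λ V` which is closed under multiplication by Tate classes of
degree two of `V` and contains (1) the Tate classes in `M ⊗ U ⊗ Λ^k V` with `k = 0` or `k c < N`,
(2) the products of a Tate class of `M` and a Tate class in `U ⊗ Λ^k V` with `k c = N`,
`w + b + k` even -/
inductive Known (q w b : ℕ) (N c : ℚ) (FM : Module.End C M) (FU : Module.End C U)
    (FV : Module.End C V) : M ⊗[C] (U ⊗[C] ExteriorAlgebra C V) → Prop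
  | low (k m : ℕ) (x : M ⊗[C] (U ⊗[C] ExteriorAlgebra C V)) (hk : k = 0 ∨ k * c < N)
      (hx : x ∈ deg C M U V k) (hm : Even m) (ht : IsTate q m (frob FM FU FV) x) :
      Known q w b N c FM FU FV x
  | top (k : ℕ) (s : M) (r : U ⊗[C] ExteriorAlgebra C V) (hk : k * c = N)
      (hs : IsTate q w FM s) (hr : r ∈ degU C U V k) (hm : Even (w + b + k))
      (ht : IsTate q (b + k) (frobU FU FV) r) : Known q w b N c FM FU FV (s ⊗ₜ[C] r)
  | mul (x : M ⊗[C] (U ⊗[C] ExteriorAlgebra C V)) (z : ExteriorAlgebra C V)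
      (hx : Known q w b N c FM FU FV x) (hz : z ∈ ⋀[C]^2 V)
      (ht : IsTate q 2 (ExteriorAlgebra.map FV).toLinearMap z) :
      Known q w b N c FM FU FV (mulBy M U z x)
  | add (x x' : M ⊗[C] (U ⊗[C] ExteriorAlgebra C V)) (hx : Known q w b N c FM FU FV x)
      (hx' : Known q w b N c FM FU FV x') : Known q w b N c FM FU FV (x + x')
  | smul (a : C) (x : M ⊗[C] (U ⊗[C] ExteriorAlgebra C V)) (hx : Known q w b N c FM FU FV x) :
      Known q w b N c FM FU FV (a • x)

end space

end Pool.Agent.H61.SB
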