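import Mathlib
import Pool.Agent.H61.SB.Defs

/-!
Kronecker: an algebraic integer of a Galois number field all of whose complex absolute values are
`q ^ (D / 2)` and all of whose conjugates have valuation `D / 2` is `q ^ (D / 2)` up to a root of
unity.  (Proof by helper91, H91/TateTwoPairs.)
-/

namespace Pool.Agent.H61.SB

open Polynomial

/-- integers of an additive valuation, pulled back, intersected with the p-integers -/
def pRing {L K : Type*} [Field L] [Field K] (v : AddValuation K (WithTop ℚ)) (j : L →+* K) (q : ℕ) :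
    Subring L where
  carrier := {x | 0 ≤ v (j x) ∧ ∃ k : ℕ, IsIntegral ℤ ((q:L)^k * x)}
  mul_mem' := by
    rintro a b ⟨h1, k1, h1'⟩ ⟨h2, k2, h2'⟩
    refine ⟨?_, k1 + k2, ?_⟩
    · rw [map_mul, AddValuation.map_mul]; exact add_nonneg h1 h2
    · have : (q:L)^(k1+k2) * (a*b) = ((q:L)^k1 * a) * ((q:L)^k2 * b) := by ring
      rw [this]; exact h1'.mul h2'
  one_mem' := by
    refine ⟨by rw [map_one, AddValuation.map_one], 0, by simpa using isIntegral_one⟩
  add_mem' := by
    rintro a b ⟨h1, k1, h1'⟩ ⟨h2, k2, h2'⟩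
    refine ⟨?_, k1 + k2, ?_⟩
    · rw [map_add]; exact le_trans (le_min h1 h2) (AddValuation.map_add v _ _)
    · have : (q:L)^(k1+k2) * (a+b) = (q:L)^k2 * ((q:L)^k1 * a) + (q:L)^k1 * ((q:L)^k2 * b) := by ring
      rw [this]
      have hq : IsIntegral ℤ (q:L) := by
        have := isIntegral_algebraMap (R := ℤ) (A := L) (x := (q:ℤ))
        simpa using this
      exact ((hq.pow _).mul h1').add ((hq.pow _).mul h2')
  zero_mem' := by
    refine ⟨by rw [map_zero, AddValuation.map_zero]; exact le_top, 0, by simpa using isIntegral_zero⟩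
  neg_mem' := by
    rintro a ⟨h1, k1, h1'⟩
    refine ⟨by rw [map_neg, AddValuation.map_neg]; exact h1, k1, ?_⟩
    rw [mul_neg]; exact h1'.neg

theorem v_intCast_nonneg {K : Type*} [Field K] (v : AddValuation K (WithTop ℚ)) (n : ℤ) :
    0 ≤ v (n : K) := by
  have h : ∀ n : ℕ, 0 ≤ v (n : K) := by
    intro n
    induction n with
    | zero => rw [Nat.cast_zero, AddValuation.map_zero]; exact le_top
    | succ n ih =>
      rw [Nat.cast_succ]
      refine le_trans (le_min ih ?_) (AddValuation.map_add v _ _)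
      rw [AddValuation.map_one]
  rcases Int.eq_nat_or_neg n with ⟨m, rfl | rfl⟩
  · simpa using h m
  · rw [Int.cast_neg, AddValuation.map_neg]; simpa using h m

theorem rat_int {K : Type*} [Field K] [CharZero K] (v : AddValuation K (WithTop ℚ))
    {p a : ℕ} (hp : p.Prime) (hv : v ((p^a : ℕ) : K) = 1) (c : ℚ)
    (h1 : 0 ≤ v (c : K)) (h2 : ∃ (k : ℕ) (z : ℤ), ((p^a : ℕ) : ℚ)^k * c = z) : ∃ z : ℤ, c = z := by
  obtain ⟨k, z, hz⟩ := h2
  have hden : c.den ∣ p ^ (a * k) := by
    have e1 : (c.num : ℚ) * ((p^(a*k) : ℕ) : ℚ) = z * c.den := by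
      have := Rat.num_div_den c
      have hd : (c.den : ℚ) ≠ 0 := by exact_mod_cast c.den_nz
      have e : c * c.den = c.num := by
        field_simp at this ⊢
        rw [mul_comm] at this
        linarith [Rat.mul_den_eq_num c]
      rw [← e, ← hz]; push_cast; rw [pow_mul]; ring
    have e2 : c.num * ((p^(a*k) : ℕ) : ℤ) = z * c.den := by exact_mod_cast e1
    have e3 : (c.den : ℤ) ∣ c.num * ((p^(a*k) : ℕ) : ℤ) := ⟨z, by rw [e2]; ring⟩
    have e4 : IsCoprime (c.den : ℤ) c.num := by
      have := c.reduced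
      rw [Int.isCoprime_iff_gcd_eq_one, Int.gcd_comm]
      exact this
    have e5 := e4.dvd_of_dvd_mul_left e3
    exact_mod_cast e5
  obtain ⟨i, -, hi⟩ := (Nat.dvd_prime_pow hp).mp hden
  rcases Nat.eq_zero_or_pos i with h0 | hpos
  · refine ⟨c.num, ?_⟩
    have : c.den = 1 := by rw [hi, h0, pow_zero]
    exact ((Rat.den_eq_one_iff c).mp this).symm
  · exfalso
    have hvp : 0 < v (p : K) := by
      by_contra h
      rw [not_lt] at h
      have h' : v ((p^a : ℕ) : K) ≤ 0 := by
        rw [Nat.cast_pow, AddValuation.map_pow]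
        exact nsmul_nonpos h a
      rw [hv] at h'
      exact absurd h' (by norm_num)
    have hnum : 0 < v (c.num : K) := by
      have e : (c.num : K) = (c : K) * ((p:K)^i) := by
        have h3 : (c : K) * (c.den : K) = (c.num : K) := by
          have := Rat.mul_den_eq_num c
          exact_mod_cast congrArg (fun t : ℚ => (t : K)) this
        rw [← h3, hi]; push_cast; ring
      rw [e, AddValuation.map_mul, AddValuation.map_pow]
      obtain ⟨i', rfl⟩ : ∃ i', i = i' + 1 := ⟨i - 1, by omega⟩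
      rw [succ_nsmul]
      have : 0 ≤ i' • v (p : K) := nsmul_nonneg hvp.le i'
      calc (0 : WithTop ℚ) < v (p : K) := hvp
        _ = 0 + v (p : K) := (zero_add _).symm
        _ ≤ (v (c : K) + i' • v (p : K)) + v (p:K) := by gcongr; exact add_nonneg h1 this
        _ = _ := by rw [add_assoc]
    have hcop : IsCoprime c.num (p : ℤ) := by
      have h4 : Nat.Coprime c.num.natAbs p := by
        have := c.reduced
        rw [hi] at this
        exact Nat.Coprime.coprime_dvd_right (dvd_pow_self p (by omega)) this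
      rw [Int.isCoprime_iff_gcd_eq_one]
      exact h4
    obtain ⟨u, w, huw⟩ := hcop
    have h5 : (1 : K) = (u : K) * (c.num : K) + (w : K) * (p : K) := by
      have := congrArg (fun t : ℤ => (t : K)) huw
      push_cast at this; exact this.symm
    have h6 : 0 < v (1 : K) := by
      rw [h5]
      refine lt_of_lt_of_le ?_ (AddValuation.map_add v _ _)
      apply lt_min
      · rw [AddValuation.map_mul]
        exact lt_of_lt_of_le hnum (le_add_of_nonneg_left (v_intCast_nonneg v u))
      · rw [AddValuation.map_mul]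
        exact lt_of_lt_of_le hvp (le_add_of_nonneg_left (v_intCast_nonneg v w))
    rw [AddValuation.map_one] at h6
    exact lt_irrefl _ h6


/-- Kronecker: an algebraic integer of L all of whose complex absolute values are q^(D/2) and all of
whose conjugates have valuation D/2 is, up to a root of unity, q^(D/2). -/
theorem kron {L K : Type*} [Field L] [NumberField L] [IsGalois ℚ L] [Field K] [CharZero K]
    (v : AddValuation K (WithTop ℚ)) (j : L →+* K)
    {p a : ℕ} (hp : p.Prime) (hv : v ((p^a : ℕ) : K) = 1) (D : ℕ) (θ : L)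
    (hint : IsIntegral ℤ θ)
    (hval : ∀ σ : L ≃ₐ[ℚ] L, v (j (σ θ)) = (((D:ℚ)/2 : ℚ) : WithTop ℚ))
    (habs : ∀ φ : L →+* ℂ, ‖φ θ‖ ^ 2 = ((p^a : ℕ) : ℝ)^D) :
    ∃ M : ℕ, 1 ≤ M ∧ θ^(2*M) = ((p^a : ℕ) : L)^(D*M) := by
  set q : ℕ := p^a with hq
  have hq0 : (q:L) ≠ 0 := by
    have : q ≠ 0 := pow_ne_zero _ hp.ne_zero
    exact_mod_cast this
  have hqR0 : (0:ℝ) < (q:ℝ) := by
    have : 0 < q := Nat.pos_of_ne_zero (pow_ne_zero _ hp.ne_zero)
    exact_mod_cast this
  set γ : L := θ^2 / (q:L)^D with hγ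
  have hθ0 : θ ≠ 0 := by
    intro h
    have φ : L →+* ℂ := (IsAlgClosed.lift (R := ℚ) (M := ℂ) (S := L)).toRingHom
    have := habs φ
    rw [h, map_zero, norm_zero] at this
    have h2 : (0:ℝ) < (q:ℝ)^D := pow_pos hqR0 D
    norm_num at this
    exact absurd this.symm h2.ne'
  have hvγ : ∀ σ : L ≃ₐ[ℚ] L, v (j (σ γ)) = 0 := by
    intro σ
    have e : σ γ * (q:L)^D = (σ θ)^2 := by
      rw [hγ, map_div₀, map_pow, map_pow, map_natCast]
      field_simp
    have e2 := congrArg (fun t => v (j t)) e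
    simp only [map_mul, map_pow, map_natCast, AddValuation.map_mul, AddValuation.map_pow, hval, hv] at e2
    have e3 : (D • (1 : WithTop ℚ)) = ((D : ℚ) : WithTop ℚ) := by
      have h1 : (1 : WithTop ℚ) = ((1 : ℚ) : WithTop ℚ) := rfl
      rw [h1, ← WithTop.coe_nsmul]
      congr 1
      simp
    have e4 : (2 • ((((D:ℚ)/2 : ℚ)) : WithTop ℚ)) = ((D : ℚ) : WithTop ℚ) := by
      rw [← WithTop.coe_nsmul]
      congr 1
      rw [nsmul_eq_mul]; push_cast; ring
    rw [e3, e4] at e2
    have hne : v (j (σ γ)) ≠ ⊤ := by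
      intro h; rw [h, WithTop.top_add] at e2; exact absurd e2 (by simp)
    obtain ⟨r, hr⟩ := WithTop.ne_top_iff_exists.mp hne
    rw [← hr] at e2 ⊢
    have : r + D = D := by exact_mod_cast e2
    have : r = 0 := by linarith
    rw [this]; rfl
  -- all conjugates of γ are in the ring
  have hconj : ∀ σ : L ≃ₐ[ℚ] L, σ γ ∈ pRing v j q := by
    intro σ
    refine ⟨(hvγ σ).ge, D, ?_⟩
    have e : (q:L)^D * σ γ = (σ θ)^2 := by
      rw [hγ, map_div₀, map_pow, map_pow, map_natCast]
      field_simp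
    rw [e]
    exact (hint.map (σ : L →ₐ[ℚ] L).toRingHom.toIntAlgHom).pow 2
  have hsplit : Splits ((minpoly ℚ γ).map (algebraMap ℚ L)) := Normal.splits inferInstance γ
  have hcoef : ∀ n, (algebraMap ℚ L) ((minpoly ℚ γ).coeff n) ∈ pRing v j q := by
    intro n
    have hprod : (minpoly ℚ γ).map (algebraMap ℚ L) =
        ((((minpoly ℚ γ).map (algebraMap ℚ L)).roots).map (fun r => X - C r)).prod := by
      exact hsplit.eq_prod_roots_of_monic ((minpoly.monic (Algebra.IsIntegral.isIntegral γ)).map _)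
    have hlift : (minpoly ℚ γ).map (algebraMap ℚ L) ∈ Polynomial.lifts (pRing v j q).subtype := by
      rw [hprod]
      apply Subsemiring.multiset_prod_mem
      intro f hf
      obtain ⟨r, hr, rfl⟩ := Multiset.mem_map.mp hf
      have hr' : r ∈ (minpoly ℚ γ).aroots L := hr
      have hcr : IsConjRoot ℚ γ r := by
        rw [isConjRoot_iff_mem_minpoly_aroots (Algebra.IsIntegral.isIntegral γ)]
        exact hr'
      obtain ⟨σ, hσ⟩ := (isConjRoot_iff_exists_algEquiv).mp hcr.symm
      have hrm : r ∈ pRing v j q := by rw [← hσ]; exact hconj σ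
      have h1 : (X : L[X]) ∈ Polynomial.lifts (pRing v j q).subtype := Polynomial.X_mem_lifts _
      have h2 : (C r : L[X]) ∈ Polynomial.lifts (pRing v j q).subtype := by
        have := Polynomial.C_mem_lifts (pRing v j q).subtype ⟨r, hrm⟩
        exact this
      have h3 : (X - C r : L[X]) ∈ Polynomial.liftsRing (pRing v j q).subtype := by
        apply Subring.sub_mem
        · exact h1
        · exact h2
      exact h3
    have := (Polynomial.lifts_iff_coeff_lifts _).mp hlift n
    rw [Polynomial.coeff_map] at this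
    obtain ⟨y, hy⟩ := this
    rw [← hy]; exact y.2
  have hcoefZ : ∀ n, ∃ z : ℤ, (minpoly ℚ γ).coeff n = z := by
    intro n
    obtain ⟨h1, k, h2⟩ := hcoef n
    set c := (minpoly ℚ γ).coeff n with hc
    apply rat_int v hp hv c
    · have : j (algebraMap ℚ L c) = (c : K) := by
        rw [eq_ratCast, map_ratCast]
      rw [← this]; exact h1
    · refine ⟨k, ?_⟩
      have h3 : IsIntegral ℤ ((q:ℚ)^k * c) := by
        have h4 : (algebraMap ℚ L) ((q:ℚ)^k * c) = (q:L)^k * algebraMap ℚ L c := by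
          rw [map_mul, map_pow, map_natCast]
        rw [← h4] at h2
        exact (isIntegral_algebraMap_iff (algebraMap ℚ L).injective).mp h2
      obtain ⟨z, hz⟩ := IsIntegrallyClosed.isIntegral_iff.mp h3
      exact ⟨z, by rw [← hz]; simp⟩
  have hγint : IsIntegral ℤ γ := by
    have hlift : minpoly ℚ γ ∈ Polynomial.lifts (algebraMap ℤ ℚ) := by
      rw [Polynomial.lifts_iff_coeff_lifts]
      intro n
      obtain ⟨z, hz⟩ := hcoefZ n
      exact ⟨z, by rw [hz]; simp⟩
    obtain ⟨f, hf1, -, hf2⟩ := Polynomial.lifts_and_natDegree_eq_and_monic hlift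
      (minpoly.monic (Algebra.IsIntegral.isIntegral γ))
    refine ⟨f, hf2, ?_⟩
    have : aeval γ (minpoly ℚ γ) = 0 := minpoly.aeval ℚ γ
    rw [← hf1, aeval_map_algebraMap] at this
    exact this
  have habsγ : ∀ φ : L →+* ℂ, ‖φ γ‖ = 1 := by
    intro φ
    rw [hγ, map_div₀, map_pow, map_pow, map_natCast, norm_div, norm_pow, norm_pow, habs φ]
    have : ‖(q:ℂ)‖ = (q:ℝ) := by simp
    rw [this]
    exact div_self (pow_pos hqR0 D).ne'
  obtain ⟨M, hM, hMγ⟩ := NumberField.Embeddings.pow_eq_one_of_norm_eq_one L ℂ hγint habsγ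
  refine ⟨M, hM, ?_⟩
  have : γ^M * ((q:L)^D)^M = (θ^2)^M := by
    rw [← mul_pow, hγ]; congr 1; field_simp
  rw [hMγ, one_mul] at this
  rw [pow_mul, pow_mul, this]

end Pool.Agent.H61.SB
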