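import Mathlib
import Pool.Agent.H61.SB.Defs
import Pool.Agent.H61.SB.Kron

/-!
The inequality between the norms of the slope functions in a multiplicative relation.
-/

namespace Pool.Agent.H61.SB

section sums

theorem sum_sq_ge {G ι : Type*} [Fintype G] (u : ι → G → ℚ) (l : List ι)
    (h : l.Pairwise fun i j => 0 ≤ ∑ g, u i g * u j g) :
    (l.map fun i => ∑ g, (u i g) ^ 2).sum ≤ ∑ g, ((l.map fun i => u i g).sum) ^ 2 := by
  induction l with
  | nil => simp
  | cons i l ih =>
    rw [List.pairwise_cons] at h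
    have h1 := ih h.2
    have h2 : 0 ≤ ∑ g, u i g * ((l.map fun j => u j g).sum) := by
      have : ∀ l' : List ι, (∀ j ∈ l', 0 ≤ ∑ g, u i g * u j g) →
          0 ≤ ∑ g, u i g * ((l'.map fun j => u j g).sum) := by
        intro l'
        induction l' with
        | nil => simp
        | cons j l' ih' =>
          intro hj
          have e : ∑ g, u i g * (((j :: l').map fun j => u j g).sum) =
              ∑ g, u i g * u j g + ∑ g, u i g * ((l'.map fun j => u j g).sum) := by
            rw [← Finset.sum_add_distrib]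
            refine Finset.sum_congr rfl fun g _ => ?_
            simp only [List.map_cons, List.sum_cons]; ring
          rw [e]
          exact add_nonneg (hj j (by simp)) (ih' fun j' hj' => hj j' (by simp [hj']))
      exact this l h.1
    have e : ∑ g, (((i :: l).map fun i => u i g).sum) ^ 2 =
        ∑ g, (u i g) ^ 2 + 2 * ∑ g, u i g * ((l.map fun j => u j g).sum) +
          ∑ g, ((l.map fun i => u i g).sum) ^ 2 := by
      rw [Finset.mul_sum, ← Finset.sum_add_distrib, ← Finset.sum_add_distrib]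
      refine Finset.sum_congr rfl fun g _ => ?_
      simp only [List.map_cons, List.sum_cons]; ring
    rw [e]
    simp only [List.map_cons, List.sum_cons]
    linarith

theorem sum_ge {ι : Type*} (g : ι → ℚ) (c : ℚ) (h : ∀ i, c ≤ g i) (l : List ι) :
    l.length * c ≤ (l.map g).sum := by
  induction l with
  | nil => simp
  | cons i l ihl =>
    simp only [List.length_cons, List.map_cons, List.sum_cons]
    push_cast
    have := h i
    linarith

end sums

section val
variable {K : Type*} [Field K] (v : AddValuation K (WithTop ℚ))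

theorem v_ne_top {x : K} (hx : x ≠ 0) : v x ≠ ⊤ := (AddValuation.ne_top_iff v).mpr hx

theorem v_eq {x : K} (hx : x ≠ 0) : v x = (((v x).untopD 0 : ℚ) : WithTop ℚ) := by
  obtain ⟨r, hr⟩ := WithTop.ne_top_iff_exists.mp (v_ne_top v hx)
  rw [← hr]; simp

theorem val_mul {x y : K} (hx : x ≠ 0) (hy : y ≠ 0) :
    (v (x * y)).untopD 0 = (v x).untopD 0 + (v y).untopD 0 := by
  rw [AddValuation.map_mul, v_eq v hx, v_eq v hy]
  simp only [WithTop.untopD_coe, ← WithTop.coe_add]

theorem val_one : (v (1 : K)).untopD 0 = 0 := by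
  rw [AddValuation.map_one]; rfl

theorem val_pow {x : K} (hx : x ≠ 0) (n : ℕ) : (v (x ^ n)).untopD 0 = n * (v x).untopD 0 := by
  induction n with
  | zero => simp [val_one]
  | succ n ih =>
    rw [pow_succ, val_mul v (pow_ne_zero _ hx) hx, ih]
    push_cast; ring

theorem val_prod {ι : Type*} (y : ι → K) (l : List ι) (h : ∀ i, y i ≠ 0) :
    (v ((l.map y).prod)).untopD 0 = (l.map fun i => (v (y i)).untopD 0).sum := by
  induction l with
  | nil => simp [val_one]
  | cons i l ih =>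
    simp only [List.map_cons, List.prod_cons, List.sum_cons]
    rw [val_mul v (h i) ?_, ih]
    apply List.prod_ne_zero
    intro h0
    obtain ⟨j, -, hj⟩ := List.mem_map.mp h0
    exact h j hj

end val

section weil
variable {K : Type*} [Field K] [NumberField K] {q w : ℕ} {x : K}

theorem exists_emb (K : Type*) [Field K] [NumberField K] : Nonempty (K →+* ℂ) :=
  ⟨(IsAlgClosed.lift (R := ℚ) (M := ℂ) (S := K)).toRingHom⟩

theorem IsWeil.ne_zero (h : IsWeil q w x) (hq : q ≠ 0) : x ≠ 0 := by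
  intro h0
  obtain ⟨ψ⟩ := exists_emb K
  have := h.2 ψ
  rw [h0, map_zero, norm_zero] at this
  have h2 : (0:ℝ) < (q:ℝ) ^ w := pow_pos (by exact_mod_cast Nat.pos_of_ne_zero hq) _
  norm_num at this
  exact absurd this.symm h2.ne'

end weil

section key
variable {K : Type*} [Field K] [NumberField K] (v : AddValuation K (WithTop ℚ))

theorem ip_self_nonneg (w : ℕ) (x : K) : 0 ≤ ip v w x w x := by
  unfold ip
  apply div_nonneg _ (Nat.cast_nonneg _)
  exact Finset.sum_nonneg fun σ _ => mul_self_nonneg _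

theorem sum_eq_ip (w w' : ℕ) (x y : K) :
    ∑ σ : K ≃ₐ[ℚ] K, sl v w x σ * sl v w' y σ = (Fintype.card (K ≃ₐ[ℚ] K)) * ip v w x w' y := by
  have : ((Fintype.card (K ≃ₐ[ℚ] K)) : ℚ) ≠ 0 := by
    exact_mod_cast Fintype.card_ne_zero
  unfold ip
  field_simp

theorem sl_sum {ι : Type*} (y : ι → K) (l : List ι) (σ : K ≃ₐ[ℚ] K) :
    (l.map fun i => sl v 1 (y i) σ).sum =
      2 * (l.map fun i => (v (σ (y i))).untopD 0).sum - l.length := by
  induction l with
  | nil => simp
  | cons i l ih =>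
    simp only [List.map_cons, List.sum_cons, List.length_cons]
    rw [ih]
    unfold sl
    push_cast
    ring

/-- the inequality -/
theorem key {p f q : ℕ} (hp : p.Prime) (hq : q = p ^ f) (hv : v (q : K) = 1) {ι : Type*}
    (w b n : ℕ) (z a : K) (y : ι → K) (l : List ι) (hz0 : z ≠ 0) (ha0 : a ≠ 0)
    (hy0 : ∀ i, y i ≠ 0) (O2 : ∀ i, ip v w z 1 (y i) = 0)
    (red : l.Pairwise fun i j => 0 ≤ ip v 1 (y i) 1 (y j)) (hn : 0 < n)
    (rel : (z * (a * (l.map y).prod)) ^ (2 * n) = (q : K) ^ ((w + b + l.length) * n)) :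
    ip v w z w z + (l.map fun i => ip v 1 (y i) 1 (y i)).sum ≤ ip v b a b a := by
  have hG : (0:ℚ) < (Fintype.card (K ≃ₐ[ℚ] K)) := by
    exact_mod_cast Fintype.card_pos
  have hq0 : (q : K) ≠ 0 := by
    have : q ≠ 0 := by rw [hq]; exact pow_ne_zero _ hp.ne_zero
    exact_mod_cast this
  have hprod : (l.map y).prod ≠ 0 := by
    apply List.prod_ne_zero
    intro h0
    obtain ⟨j, -, hj⟩ := List.mem_map.mp h0
    exact hy0 j hj
  -- the relation of slopes
  have hrel : ∀ σ, sl v b a σ = -(sl v w z σ + (l.map fun i => sl v 1 (y i) σ).sum) := by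
    intro σ
    have hσ : ∀ t : K, t ≠ 0 → σ t ≠ 0 := fun t ht => (map_ne_zero σ).mpr ht
    have e := congrArg (fun t => (v (σ t)).untopD 0) rel
    simp only [map_pow, map_mul, map_natCast] at e
    rw [val_pow v (mul_ne_zero (hσ _ hz0) (mul_ne_zero (hσ _ ha0) (hσ _ hprod))),
      val_pow v hq0, val_mul v (hσ _ hz0) (mul_ne_zero (hσ _ ha0) (hσ _ hprod)),
      val_mul v (hσ _ ha0) (hσ _ hprod), map_list_prod, List.map_map,
      val_prod v (σ ∘ y) l (fun i => hσ _ (hy0 i)), hv] at e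
    rw [sl_sum]
    unfold sl
    have hn' : (n : ℚ) ≠ 0 := by exact_mod_cast hn.ne'
    have e1 : ((1 : WithTop ℚ).untopD 0 : ℚ) = 1 := rfl
    rw [e1] at e
    push_cast at e
    have e2 : 2 * ((v (σ z)).untopD 0 + ((v (σ a)).untopD 0 +
        (l.map fun i => (v (σ (y i))).untopD 0).sum)) = w + b + l.length := by
      apply mul_left_cancel₀ hn'
      have e3 : (l.map fun i => (v ((σ ∘ y) i)).untopD 0) =
        (l.map fun i => (v (σ (y i))).untopD 0) := rfl
      rw [e3] at e
      linarith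
    linarith
  have h1 : ∑ σ : K ≃ₐ[ℚ] K, sl v b a σ * sl v b a σ = ∑ σ : K ≃ₐ[ℚ] K, sl v w z σ * sl v w z σ +
      2 * ∑ σ : K ≃ₐ[ℚ] K, sl v w z σ * ((l.map fun i => sl v 1 (y i) σ).sum) +
      ∑ σ : K ≃ₐ[ℚ] K, ((l.map fun i => sl v 1 (y i) σ).sum) ^ 2 := by
    rw [Finset.mul_sum, ← Finset.sum_add_distrib, ← Finset.sum_add_distrib]
    refine Finset.sum_congr rfl fun σ _ => ?_
    rw [hrel σ]; ring
  have h2 : ∑ σ : K ≃ₐ[ℚ] K, sl v w z σ * ((l.map fun i => sl v 1 (y i) σ).sum) = 0 := by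
    clear rel red hrel h1 hprod
    induction l with
    | nil => simp
    | cons i l ih =>
      have e : ∑ σ : K ≃ₐ[ℚ] K, sl v w z σ * (((i :: l).map fun i => sl v 1 (y i) σ).sum) =
          ∑ σ : K ≃ₐ[ℚ] K, sl v w z σ * sl v 1 (y i) σ +
          ∑ σ : K ≃ₐ[ℚ] K, sl v w z σ * ((l.map fun i => sl v 1 (y i) σ).sum) := by
        rw [← Finset.sum_add_distrib]
        refine Finset.sum_congr rfl fun σ _ => ?_
        simp only [List.map_cons, List.sum_cons]; ring
      rw [e, ih, sum_eq_ip, O2 i]; simp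
  have h3 : (l.map fun i => ∑ σ : K ≃ₐ[ℚ] K, (sl v 1 (y i) σ) ^ 2).sum ≤
      ∑ σ : K ≃ₐ[ℚ] K, ((l.map fun i => sl v 1 (y i) σ).sum) ^ 2 := by
    apply sum_sq_ge (fun i σ => sl v 1 (y i) σ)
    refine red.imp ?_
    intro i j h
    rw [sum_eq_ip]
    exact mul_nonneg hG.le h
  have h4 : (l.map fun i => ∑ σ : K ≃ₐ[ℚ] K, (sl v 1 (y i) σ) ^ 2).sum =
      (Fintype.card (K ≃ₐ[ℚ] K)) * (l.map fun i => ip v 1 (y i) 1 (y i)).sum := by
    rw [← List.sum_map_mul_left]
    congr 1
    apply List.map_congr_left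
    intro i _
    rw [← sum_eq_ip]
    exact Finset.sum_congr rfl fun σ _ => by ring
  rw [sum_eq_ip, h2, sum_eq_ip] at h1
  rw [h4] at h3
  have h5 : (Fintype.card (K ≃ₐ[ℚ] K) : ℚ) * (ip v w z w z +
      (l.map fun i => ip v 1 (y i) 1 (y i)).sum) ≤
      (Fintype.card (K ≃ₐ[ℚ] K)) * ip v b a b a := by
    rw [h1, mul_add]; linarith
  exact le_of_mul_le_mul_left h5 hG

/-- a Weil number all of whose slopes are half its weight -/
theorem kron_weil [IsGalois ℚ K] {p f q : ℕ} (hp : p.Prime) (hq : q = p ^ f)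
    (hv : v (q : K) = 1) (w : ℕ) (z : K) (hz : IsWeil q w z) (h0 : ip v w z w z ≤ 0) :
    ∃ n : ℕ, 0 < n ∧ z ^ (2 * n) = (q : K) ^ (w * n) := by
  have hq0 : q ≠ 0 := by rw [hq]; exact pow_ne_zero _ hp.ne_zero
  have hz0 : z ≠ 0 := hz.ne_zero hq0
  have h1 : ∑ σ : K ≃ₐ[ℚ] K, sl v w z σ * sl v w z σ ≤ 0 := by
    rw [sum_eq_ip]
    exact mul_nonpos_of_nonneg_of_nonpos (Nat.cast_nonneg _) h0
  have h3 : ∀ σ, sl v w z σ = 0 := by
    intro σ
    have h4 := Finset.single_le_sum (f := fun σ => sl v w z σ * sl v w z σ)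
      (fun σ _ => mul_self_nonneg _) (Finset.mem_univ σ)
    have h5 : sl v w z σ * sl v w z σ ≤ 0 := le_trans h4 h1
    exact mul_self_eq_zero.mp (le_antisymm h5 (mul_self_nonneg _))
  subst hq
  obtain ⟨M, hM, hM2⟩ := kron v (RingHom.id K) hp hv w z hz.1 (by
    intro σ
    have h4 := h3 σ
    unfold sl at h4
    have hσz : σ z ≠ 0 := (map_ne_zero σ).mpr hz0
    rw [RingHom.id_apply, v_eq v hσz]
    congr 1
    linarith) hz.2
  exact ⟨M, hM, hM2⟩

end key

end Pool.Agent.H61.SB
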