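import Mathlib
import Pool.Agent.H61.SB.Defs
import Pool.Agent.H61.SB.Kron
import Pool.Agent.H61.SB.Key

/-!
The slopes of a Weil number of weight `b` lie between `0` and `b`.
-/

namespace Pool.Agent.H61.SB

theorem v_nonneg {K : Type*} [Field K] (v : AddValuation K (WithTop ℚ)) {x : K}
    (hx : IsIntegral ℤ x) : 0 ≤ v x := by
  set V := AddValuation.toValuation v with hV
  have h1 : IsIntegral V.integer x := hx.tower_top
  have h2 : x ∈ V.integer := (Valuation.integer.integers V).mem_of_integral h1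
  rw [Valuation.mem_integer_iff, hV, AddValuation.toValuation_apply] at h2
  exact h2

theorem integral_div {K : Type*} [Field K] [NumberField K] {q b : ℕ} {a : K}
    (ha : IsWeil q b a) (ha0 : a ≠ 0) : IsIntegral ℤ ((q : K) ^ b / a) := by
  obtain ⟨ψ⟩ := exists_emb K
  have h1 : ψ ((q : K) ^ b / a) = starRingEnd ℂ (ψ a) := by
    have hψ : ψ a ≠ 0 := (map_ne_zero ψ).mpr ha0
    rw [map_div₀, map_pow, map_natCast, div_eq_iff hψ, mul_comm, Complex.mul_conj]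
    have := ha.2 ψ
    rw [Complex.normSq_eq_norm_sq, this]
    push_cast; rfl
  have h2 : IsIntegral ℤ (ψ ((q : K) ^ b / a)) := by
    rw [h1]
    have h3 : IsIntegral ℤ (ψ a) := ha.1.map ψ.toIntAlgHom
    exact h3.map (starRingEnd ℂ).toIntAlgHom
  exact (isIntegral_algHom_iff ψ.toIntAlgHom ψ.injective).mp h2

theorem ip_le_sq {K : Type*} [Field K] [NumberField K] (v : AddValuation K (WithTop ℚ))
    {q b : ℕ} (hq0 : q ≠ 0) (hv : v (q : K) = 1) {a : K} (ha : IsWeil q b a) :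
    ip v b a b a ≤ (b : ℚ) ^ 2 := by
  have ha0 : a ≠ 0 := ha.ne_zero hq0
  have hqK : (q : K) ≠ 0 := by exact_mod_cast hq0
  have hG : (0:ℚ) < (Fintype.card (K ≃ₐ[ℚ] K)) := by
    exact_mod_cast Fintype.card_pos
  have hσ : ∀ σ : K ≃ₐ[ℚ] K, sl v b a σ * sl v b a σ ≤ (b : ℚ) ^ 2 := by
    intro σ
    have hσa : σ a ≠ 0 := (map_ne_zero σ).mpr ha0
    have h1 : 0 ≤ v (σ a) := v_nonneg v (ha.1.map (σ : K →ₐ[ℚ] K).toRingHom.toIntAlgHom)
    have h2 : 0 ≤ v (σ ((q : K) ^ b / a)) :=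
      v_nonneg v ((integral_div ha ha0).map (σ : K →ₐ[ℚ] K).toRingHom.toIntAlgHom)
    rw [map_div₀, map_pow, map_natCast] at h2
    have h3 : (v ((q : K) ^ b / σ a)).untopD 0 + (v (σ a)).untopD 0 = b := by
      rw [← val_mul v (div_ne_zero (pow_ne_zero _ hqK) hσa) hσa, div_mul_cancel₀ _ hσa,
        val_pow v hqK, hv]
      have e1 : ((1 : WithTop ℚ).untopD 0 : ℚ) = 1 := rfl
      rw [e1, mul_one]
    rw [v_eq v hσa] at h1
    rw [v_eq v (div_ne_zero (pow_ne_zero _ hqK) hσa)] at h2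
    have h1' : (0:ℚ) ≤ (v (σ a)).untopD 0 := by exact_mod_cast h1
    have h2' : (0:ℚ) ≤ (v ((q : K) ^ b / σ a)).untopD 0 := by exact_mod_cast h2
    unfold sl
    nlinarith
  unfold ip
  rw [div_le_iff₀ hG]
  calc ∑ σ : K ≃ₐ[ℚ] K, sl v b a σ * sl v b a σ ≤ ∑ _σ : K ≃ₐ[ℚ] K, (b : ℚ) ^ 2 :=
        Finset.sum_le_sum fun σ _ => hσ σ
    _ = (b : ℚ) ^ 2 * (Fintype.card (K ≃ₐ[ℚ] K)) := by
        rw [Finset.sum_const, Finset.card_univ, nsmul_eq_mul, mul_comm]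

end Pool.Agent.H61.SB
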