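import Mathlib
import Pool.Agent.H61.SB.Defs

/-!
Linear algebra: monomials in the exterior algebra.
-/

namespace Pool.Agent.H61.SB

open scoped TensorProduct

section mono
variable {C : Type*} [Field C] {V ι : Type*} [AddCommGroup V] [Module C V]

/-- the product of the vectors `e i`, `i ∈ l`, in the exterior algebra -/
noncomputable def mono (C : Type*) [Field C] {V ι : Type*} [AddCommGroup V] [Module C V]
    (e : ι → V) (l : List ι) : ExteriorAlgebra C V :=
  (l.map fun i => ExteriorAlgebra.ι C (e i)).prod

theorem mono_nil (e : ι → V) : mono C e [] = 1 := by simp [mono]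

theorem mono_cons (e : ι → V) (i : ι) (l : List ι) :
    mono C e (i :: l) = ExteriorAlgebra.ι C (e i) * mono C e l := by simp [mono]

theorem mono_append (e : ι → V) (l l' : List ι) :
    mono C e (l ++ l') = mono C e l * mono C e l' := by simp [mono]

theorem mono_mem (e : ι → V) (l : List ι) : mono C e l ∈ ⋀[C]^(l.length) V := by
  induction l with
  | nil =>
    rw [mono_nil, List.length_nil]
    change (1 : ExteriorAlgebra C V) ∈ (LinearMap.range (ExteriorAlgebra.ι C : V →ₗ[C] _)) ^ 0
    rw [pow_zero]; exact Submodule.one_le.mp le_rfl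
  | cons i l ih =>
    rw [mono_cons, List.length_cons]
    change _ ∈ (LinearMap.range (ExteriorAlgebra.ι C : V →ₗ[C] _)) ^ (l.length + 1)
    rw [pow_succ']
    exact Submodule.mul_mem_mul ⟨e i, rfl⟩ ih

theorem map_mono (e : ι → V) (y : ι → C) (F : Module.End C V) (he : ∀ i, F (e i) = y i • e i)
    (l : List ι) : ExteriorAlgebra.map F (mono C e l) = (l.map y).prod • mono C e l := by
  induction l with
  | nil => simp [mono_nil]
  | cons i l ih =>
    rw [mono_cons, map_mul, ih, ExteriorAlgebra.map_apply_ι, he, map_smul, List.map_cons,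
      List.prod_cons, smul_mul_smul_comm]

theorem mono_perm (e : ι → V) {l l' : List ι} (h : l.Perm l') :
    mono C e l = mono C e l' ∨ mono C e l = -mono C e l' := by
  induction h with
  | nil => left; rfl
  | cons i _ ih =>
    rw [mono_cons, mono_cons]
    rcases ih with h | h
    · left; rw [h]
    · right; rw [h, mul_neg]
  | swap i j l =>
    right
    rw [mono_cons, mono_cons, mono_cons, mono_cons, ← mul_assoc, ← mul_assoc, ← neg_mul]
    congr 1
    exact eq_neg_of_add_eq_zero_left (ExteriorAlgebra.ι_add_mul_swap _ _)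
  | trans _ _ ih1 ih2 =>
    rcases ih1 with h1 | h1 <;> rcases ih2 with h2 | h2 <;> rw [h1, h2] <;> simp

theorem exists_pair {R : ι → ι → Prop} (l : List ι) (h : ¬ l.Pairwise R) :
    ∃ i j l', l.Perm (l' ++ [i, j]) ∧ ¬ R i j := by
  induction l with
  | nil => exact absurd List.Pairwise.nil h
  | cons a l ih =>
    rw [List.pairwise_cons, not_and_or] at h
    rcases h with h | h
    · push Not at h
      obtain ⟨j, hj, hR⟩ := h
      obtain ⟨l1, l2, rfl⟩ := List.append_of_mem hj
      refine ⟨a, j, l1 ++ l2, ?_, hR⟩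
      have e1 : (a :: (l1 ++ j :: l2)).Perm (a :: j :: (l1 ++ l2)) :=
        List.Perm.cons _ List.perm_middle
      refine e1.trans ?_
      have e2 : a :: j :: (l1 ++ l2) = [a, j] ++ (l1 ++ l2) := rfl
      rw [e2]
      exact List.perm_append_comm
    · obtain ⟨i, j, l', hp, hR⟩ := ih h
      exact ⟨i, j, a :: l', by simpa using hp.cons a, hR⟩

/-- a basis of the exterior algebra by monomials -/
theorem exists_mono_basis (e : Module.Basis ι C V) :
    ∃ (B : Module.Basis (Finset ι) C (ExteriorAlgebra C V)), ∀ k, ∃ l, B k = mono C e l := by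
  classical
  let : LinearOrder ι := linearOrderOfSTO WellOrderingRel
  refine ⟨e.ExteriorAlgebra, fun s => ?_⟩
  rw [ExteriorAlgebra.basis_apply]
  unfold ExteriorAlgebra.ιMulti_family
  rw [ExteriorAlgebra.ιMulti_apply]
  refine ⟨List.ofFn fun i =>
    (Set.powersetCard.ofFinEmbEquiv.symm (Set.powersetCard.prodEquiv.symm s).snd) i, ?_⟩
  unfold mono
  rw [List.map_ofFn]
  rfl

end mono

end Pool.Agent.H61.SB
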