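import Mathlib
import Pool.Agent.H61.SB.Defs
import Pool.Agent.H61.SB.Key
import Pool.Agent.H61.SB.Lin
import Pool.Agent.H61.SB.Bound

/-!
The theorem on Tate classes of `M ⊗ U ⊗ Λ V`.
-/

namespace Pool.Agent.H61.SB

open scoped TensorProduct

section general

variable {C : Type*} [Field C]
variable {M W : Type*} [AddCommGroup M] [Module C M] [AddCommGroup W] [Module C W]

theorem eig_pow {F : Module.End C W} {x : W} {a : C} (h : F x = a • x) (n : ℕ) :
    (F ^ n) x = a ^ n • x := by
  induction n with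
  | zero => simp
  | succ n ih => rw [pow_succ, Module.End.mul_apply, h, map_smul, ih, smul_smul, pow_succ', mul_comm]

theorem map_pow_tmul (FM : Module.End C M) (FW : Module.End C W) (n : ℕ) (x : M) (y : W) :
    ((TensorProduct.map FM FW) ^ n) (x ⊗ₜ[C] y) = ((FM ^ n) x) ⊗ₜ[C] ((FW ^ n) y) := by
  induction n with
  | zero => simp
  | succ n ih =>
    rw [pow_succ', Module.End.mul_apply, ih, TensorProduct.map_tmul, pow_succ', pow_succ',
      Module.End.mul_apply, Module.End.mul_apply]

/-- decomposition of an eigenvector along an eigenbasis of the right factor -/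
theorem decomp {κ : Type*} (FM : Module.End C M) (FW : Module.End C W)
    (B : Module.Basis κ C W) (lam : κ → C) (hB : ∀ k, FW (B k) = lam k • B k) (n : ℕ) (c : C)
    (x : M ⊗[C] W) (hx : ((TensorProduct.map FM FW) ^ n) x = c • x) :
    ∃ s : κ →₀ M, (s.sum fun k t => t ⊗ₜ[C] B k) = x ∧
      ∀ k, (lam k) ^ n • (FM ^ n) (s k) = c • s k := by
  classical
  obtain ⟨s, hs⟩ := TensorProduct.eq_repr_basis_right B x
  refine ⟨s, hs, ?_⟩
  set s1 : κ →₀ M := s.support.sum fun k => Finsupp.single k ((lam k) ^ n • (FM ^ n) (s k)) with hs1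
  have hs1k : ∀ k, s1 k = (lam k) ^ n • (FM ^ n) (s k) := by
    intro k
    rw [hs1, Finsupp.finsetSum_apply]
    by_cases hk : k ∈ s.support
    · rw [Finset.sum_eq_single k]
      · simp
      · intro k' _ hk'; exact Finsupp.single_eq_of_ne (Ne.symm hk')
      · intro h; exact absurd hk h
    · rw [Finset.sum_eq_zero]
      · have : s k = 0 := by simpa using hk
        rw [this]; simp
      · intro k' hk'
        apply Finsupp.single_eq_of_ne
        rintro rfl
        exact hk hk'
  have e1 : TensorProduct.equivFinsuppOfBasisRight B (((TensorProduct.map FM FW) ^ n) x) = s1 := by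
    rw [← hs, Finsupp.sum, map_sum, map_sum, hs1]
    refine Finset.sum_congr rfl fun k _ => ?_
    rw [map_pow_tmul, eig_pow (hB k), TensorProduct.tmul_smul, TensorProduct.smul_tmul']
    ext k'
    rw [TensorProduct.equivFinsuppOfBasisRight_apply_tmul_apply]
    by_cases h : k = k'
    · subst h; simp
    · rw [Finsupp.single_eq_of_ne (Ne.symm h), Module.Basis.repr_self,
        Finsupp.single_eq_of_ne (Ne.symm h), zero_smul]
  have e2 : TensorProduct.equivFinsuppOfBasisRight B x = s := by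
    rw [← hs, Finsupp.sum, map_sum]
    conv_rhs => rw [← Finsupp.sum_single s, Finsupp.sum]
    refine Finset.sum_congr rfl fun k _ => ?_
    ext k'
    rw [TensorProduct.equivFinsuppOfBasisRight_apply_tmul_apply]
    by_cases h : k = k'
    · subst h; simp
    · rw [Finsupp.single_eq_of_ne (Ne.symm h), Module.Basis.repr_self,
        Finsupp.single_eq_of_ne (Ne.symm h), zero_smul]
  have e3 : s1 = c • s := by
    rw [← e1, hx, map_smul, e2]
  intro k
  rw [← hs1k k, e3, Finsupp.smul_apply]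

/-- a vector fixed up to a scalar by a power of `F` gives an eigenvalue of `F` -/
theorem exists_eig [IsAlgClosed C] [Module.Finite C M] (FM : Module.End C M) (n : ℕ) (x : M) (hx : x ≠ 0)
    (c : C) (h : (FM ^ n) x = c • x) : ∃ z, FM.HasEigenvalue z ∧ z ^ n = c := by
  set E : Submodule C M := Module.End.eigenspace (FM ^ n) c with hE
  have hxE : x ∈ E := Module.End.mem_eigenspace_iff.mpr h
  have hcomm : Commute FM (FM ^ n) := (Commute.refl FM).pow_right n
  have hmaps : ∀ v ∈ E, FM v ∈ E := by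
    intro v hv
    rw [hE, Module.End.mem_eigenspace_iff] at hv ⊢
    rw [← Module.End.mul_apply, ← hcomm.eq, Module.End.mul_apply, hv, map_smul]
  have : Nontrivial E := ⟨⟨⟨x, hxE⟩, 0, fun h => hx (congrArg Subtype.val h)⟩⟩
  obtain ⟨z, hz⟩ := Module.End.exists_eigenvalue (FM.restrict hmaps)
  obtain ⟨v, hv⟩ := hz.exists_hasEigenvector
  have hv1 : FM (v : M) = z • (v : M) := by
    have := congrArg Subtype.val hv.apply_eq_smul
    simpa using this
  have hv0 : (v : M) ≠ 0 := fun h => hv.2 (Subtype.ext h)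
  refine ⟨z, Module.End.hasEigenvalue_of_hasEigenvector
    (Module.End.hasEigenvector_iff.mpr ⟨Module.End.mem_eigenspace_iff.mpr hv1, hv0⟩), ?_⟩
  have hv2 : (FM ^ n) (v : M) = c • (v : M) := Module.End.mem_eigenspace_iff.mp v.2
  rw [eig_pow hv1] at hv2
  exact smul_left_injective C hv0 hv2

end general

section main

variable {C : Type*} [Field C]
variable {M U V : Type*} [AddCommGroup M] [Module C M] [AddCommGroup U] [Module C U]
  [AddCommGroup V] [Module C V]
variable {q w b : ℕ} {N c : ℚ} {FM : Module.End C M} {FU : Module.End C U} {FV : Module.End C V}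

theorem known_zero : Known q w b N c FM FU FV 0 :=
  Known.low 0 0 0 (Or.inl rfl) (Submodule.zero_mem _) (by simp) ⟨1, one_pos, by simp⟩

theorem known_sum {κ : Type*} (s : Finset κ) (f : κ → M ⊗[C] (U ⊗[C] ExteriorAlgebra C V))
    (h : ∀ k ∈ s, Known q w b N c FM FU FV (f k)) : Known q w b N c FM FU FV (∑ k ∈ s, f k) := by
  classical
  induction s using Finset.induction_on with
  | empty => simpa using known_zero
  | insert a s ha ih =>
    rw [Finset.sum_insert ha]
    exact Known.add _ _ (h a (by simp)) (ih fun k hk => h k (by simp [hk]))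

theorem known_neg (x : M ⊗[C] (U ⊗[C] ExteriorAlgebra C V)) (h : Known q w b N c FM FU FV x) :
    Known q w b N c FM FU FV (-x) := by
  have := Known.smul (-1) x h
  simpa using this

theorem mem_degU {k : ℕ} (u : U) (z : ExteriorAlgebra C V) (hz : z ∈ ⋀[C]^k V) :
    u ⊗ₜ[C] z ∈ degU C U V k :=
  ⟨u ⊗ₜ[C] (⟨z, hz⟩ : ⋀[C]^k V), by simp⟩

theorem mem_deg {k : ℕ} (x : M) (r : U ⊗[C] ExteriorAlgebra C V) (hr : r ∈ degU C U V k) :
    x ⊗ₜ[C] r ∈ deg C M U V k :=
  ⟨x ⊗ₜ[C] (⟨r, hr⟩ : degU C U V k), by simp⟩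

variable {K : Type*} [Field K] [NumberField K] [IsGalois ℚ K] (v : AddValuation K (WithTop ℚ))
  (j : K →+* C)

theorem j_prod {ι : Type*} (y : ι → K) (l : List ι) :
    j ((l.map y).prod) = (l.map fun i => j (y i)).prod := by
  rw [map_list_prod, List.map_map]; rfl

theorem known_pure [IsAlgClosed C] {p f : ℕ} (hp : p.Prime) (hq : q = p ^ f)
    (hv : v (q : K) = 1) [Module.Finite C M] {ι : Type*}
    (e : ι → V) (y : ι → K) (he : ∀ i, FV (e i) = j (y i) • e i)
    (hz : ∀ z, FM.HasEigenvalue z →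
      ∃ x : K, j x = z ∧ IsWeil q w x ∧ ∀ i, ip v w x 1 (y i) = 0)
    (hy : ∀ i, IsWeil q 1 (y i)) (hyc : ∀ i, c ≤ ip v 1 (y i) 1 (y i))
    (O1 : ∀ i i', Sim (y i * y i') (q : K) ∨ 0 ≤ ip v 1 (y i) 1 (y i'))
    (u : U) (a : K) (hu : FU u = j a • u) (ha : IsWeil q b a) (hN : ip v b a b a ≤ N)
    (x : M) (hx : x ≠ 0) :
    ∀ (d : ℕ) (l : List ι), l.length = d → Even (w + b + l.length) → ∀ n : ℕ, 0 < n →
      (j (a * (l.map y).prod)) ^ (2 * n) • (FM ^ (2 * n)) x =
        (q : C) ^ ((w + b + l.length) * n) • x →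
      Known q w b N c FM FU FV (x ⊗ₜ[C] (u ⊗ₜ[C] mono C e l)) := by
  have hq0 : q ≠ 0 := by rw [hq]; exact pow_ne_zero _ hp.ne_zero
  have hqK : (q : K) ≠ 0 := by exact_mod_cast hq0
  have hjq : j (q : K) = (q : C) := map_natCast j q
  have hqC : (q : C) ≠ 0 := by rw [← hjq]; exact (map_ne_zero j).mpr hqK
  have ha0 : a ≠ 0 := ha.ne_zero hq0
  have hy0 : ∀ i, y i ≠ 0 := fun i => (hy i).ne_zero hq0
  have hprod0 : ∀ l : List ι, (l.map y).prod ≠ 0 := by
    intro l
    apply List.prod_ne_zero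
    intro h
    obtain ⟨i, -, hi⟩ := List.mem_map.mp h
    exact hy0 i hi
  intro d
  induction d using Nat.strong_induction_on with
  | _ d ih =>
  intro l hl hev n hn hrel
  by_cases hpw : l.Pairwise fun i i' => ¬ Sim (y i * y i') (q : K)
  · -- no pair: the inequality
    obtain ⟨al, hal⟩ : ∃ al : K, al = a * (l.map y).prod := ⟨_, rfl⟩
    have hal0 : al ≠ 0 := by rw [hal]; exact mul_ne_zero ha0 (hprod0 l)
    have hjal0 : j al ≠ 0 := (map_ne_zero j).mpr hal0
    rw [← hal] at hrel
    have hFx : (FM ^ (2 * n)) x =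
        ((q : C) ^ ((w + b + l.length) * n) / (j al) ^ (2 * n)) • x := by
      rw [div_eq_inv_mul, mul_smul, ← hrel, smul_smul, inv_mul_cancel₀ (pow_ne_zero _ hjal0),
        one_smul]
    obtain ⟨z', hzE, hzn⟩ := exists_eig FM (2 * n) x hx _ hFx
    obtain ⟨z, rfl, hzW, hzO⟩ := hz z' hzE
    have hzal : (z * al) ^ (2 * n) = (q : K) ^ ((w + b + l.length) * n) := by
      apply j.injective
      rw [map_pow, map_mul, mul_pow, hzn, div_mul_cancel₀ _ (pow_ne_zero _ hjal0), map_pow, hjq]
    have hineq : ip v w z w z + (l.map fun i => ip v 1 (y i) 1 (y i)).sum ≤ ip v b a b a := by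
      apply key v hp hq hv w b n z a y l (hzW.ne_zero hq0) ha0 hy0 hzO
      · refine hpw.imp ?_
        intro i i' hij
        rcases O1 i i' with h | h
        · exact absurd h hij
        · exact h
      · exact hn
      · rw [← hal]; exact hzal
    have hsum : l.length * c ≤ (l.map fun i => ip v 1 (y i) 1 (y i)).sum :=
      sum_ge (fun i => ip v 1 (y i) 1 (y i)) c hyc l
    have hz0 := ip_self_nonneg v w z
    have hkc : (l.length : ℚ) * c ≤ N := by linarith
    have hfU : (ExteriorAlgebra.map FV).toLinearMap (mono C e l) =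
        (j ((l.map y).prod)) • mono C e l := by
      rw [j_prod]; exact map_mono e (fun i => j (y i)) FV he l
    have hfr : frobU FU FV (u ⊗ₜ[C] mono C e l) = j al • (u ⊗ₜ[C] mono C e l) := by
      unfold frobU
      rw [TensorProduct.map_tmul, hu, hfU, TensorProduct.tmul_smul, ← TensorProduct.smul_tmul',
        smul_smul, mul_comm, ← map_mul, ← hal]
    have hdeg : u ⊗ₜ[C] mono C e l ∈ degU C U V l.length := mem_degU u _ (mono_mem e l)
    by_cases hlow : l.length = 0 ∨ (l.length : ℚ) * c < N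
    · refine Known.low l.length (w + b + l.length) _ hlow (mem_deg x _ hdeg) hev ⟨n, hn, ?_⟩
      unfold frob
      rw [map_pow_tmul, eig_pow hfr, TensorProduct.tmul_smul, TensorProduct.smul_tmul', hrel,
        ← TensorProduct.smul_tmul']
    · push Not at hlow
      have hkN : (l.length : ℚ) * c = N := le_antisymm hkc hlow.2
      obtain ⟨n1, hn1, hzn1⟩ := kron_weil v hp hq hv w z hzW (by linarith)
      refine Known.top l.length x _ hkN ⟨n * n1, Nat.mul_pos hn hn1, ?_⟩ hdeg hev
        ⟨n * n1, Nat.mul_pos hn hn1, ?_⟩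
      · have e1 : (FM ^ (2 * n)) x = (j z) ^ (2 * n) • x := by rw [hFx, hzn]
        have e2 : (FM ^ (2 * (n * n1))) x = ((j z) ^ (2 * n)) ^ n1 • x := by
          rw [← eig_pow e1, ← pow_mul]; congr 2; ring
        rw [e2]
        congr 1
        have e3 : ((j z) ^ (2 * n)) ^ n1 = j ((z ^ (2 * n1)) ^ n) := by
          rw [map_pow, map_pow, ← pow_mul, ← pow_mul]; congr 1; ring
        rw [e3, hzn1, map_pow, map_pow, hjq, ← pow_mul]; congr 1; ring
      · rw [eig_pow hfr]
        congr 1
        have e1 : (z ^ (2 * n1)) ^ n * al ^ (2 * (n * n1)) =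
            (q : K) ^ (w * (n * n1)) * (q : K) ^ ((b + l.length) * (n * n1)) := by
          have e2 : (z ^ (2 * n1)) ^ n * al ^ (2 * (n * n1)) = ((z * al) ^ (2 * n)) ^ n1 := by
            rw [← pow_mul, ← pow_mul, mul_pow]
            congr 2 <;> ring
          rw [e2, hzal, ← pow_mul, ← pow_add]
          congr 1; ring
        have e3 : (z ^ (2 * n1)) ^ n = (q : K) ^ (w * (n * n1)) := by
          rw [hzn1, ← pow_mul]; congr 1; ring
        rw [e3] at e1
        have e4 := mul_left_cancel₀ (pow_ne_zero _ hqK) e1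
        rw [← map_pow, e4, map_pow, hjq]
  · -- a pair
    obtain ⟨i, i', l', hperm, hij⟩ := exists_pair l hpw
    rw [not_not] at hij
    obtain ⟨r, hr, hr2⟩ := hij
    have hlen : l.length = l'.length + 2 := by
      have := hperm.length_eq
      simpa using this
    have hprod : (l.map y).prod = (l'.map y).prod * (y i * y i') := by
      have := (hperm.map y).prod_eq
      rw [this]; simp
    have hz2 : (y i * y i') ^ (2 * (n * r)) = (q : K) ^ (2 * (n * r)) := by
      have : (y i * y i') ^ (2 * (n * r)) = ((y i * y i') ^ r) ^ (2 * n) := by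
        rw [← pow_mul]; congr 1; ring
      rw [this, hr2, ← pow_mul]; congr 1; ring
    have hK : Known q w b N c FM FU FV (x ⊗ₜ[C] (u ⊗ₜ[C] mono C e l')) := by
      refine ih l'.length (by omega) l' rfl ?_ (n * r) (Nat.mul_pos hn hr) ?_
      · rw [hlen] at hev
        rw [← add_assoc] at hev
        exact (Nat.even_add.mp hev).mpr (by decide)
      have hal0 : j (a * (l.map y).prod) ≠ 0 :=
        (map_ne_zero j).mpr (mul_ne_zero ha0 (hprod0 l))
      have hFx : (FM ^ (2 * n)) x =
          ((q : C) ^ ((w + b + l.length) * n) / (j (a * (l.map y).prod)) ^ (2 * n)) • x := by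
        rw [div_eq_inv_mul, mul_smul, ← hrel, smul_smul, inv_mul_cancel₀ (pow_ne_zero _ hal0),
          one_smul]
      have e2 : (FM ^ (2 * (n * r))) x =
          ((q : C) ^ ((w + b + l.length) * n) / (j (a * (l.map y).prod)) ^ (2 * n)) ^ r • x := by
        rw [← eig_pow hFx, ← pow_mul]; congr 2; ring
      rw [e2, smul_smul]
      congr 1
      have e3 : (j (a * (l.map y).prod)) ^ (2 * (n * r)) =
          (j (a * (l'.map y).prod)) ^ (2 * (n * r)) * (q : C) ^ (2 * (n * r)) := by
        rw [← hjq, ← map_pow, ← map_pow, ← map_pow, ← map_mul, hprod, ← mul_assoc, mul_pow, hz2]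
      have e4 : ((q : C) ^ ((w + b + l.length) * n) / (j (a * (l.map y).prod)) ^ (2 * n)) ^ r =
          (q : C) ^ ((w + b + l.length) * (n * r)) /
            (j (a * (l.map y).prod)) ^ (2 * (n * r)) := by
        rw [div_pow, ← pow_mul, ← pow_mul]; congr 2 <;> ring
      rw [e4, e3, hlen]
      have h1 : (j (a * (l'.map y).prod)) ^ (2 * (n * r)) ≠ 0 :=
        pow_ne_zero _ ((map_ne_zero j).mpr (mul_ne_zero ha0 (hprod0 l')))
      have h2 : (q : C) ^ (2 * (n * r)) ≠ 0 := pow_ne_zero _ hqC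
      rw [mul_div_assoc', div_eq_iff (mul_ne_zero h1 h2)]
      ring
    have hmul := Known.mul _ (ExteriorAlgebra.ι C (e i) * ExteriorAlgebra.ι C (e i')) hK (by
        have := mono_mem (C := C) e [i, i']
        simpa [mono] using this) ⟨n * r, Nat.mul_pos hn hr, by
        have h1 : (ExteriorAlgebra.map FV).toLinearMap
            (ExteriorAlgebra.ι C (e i) * ExteriorAlgebra.ι C (e i')) =
            (j (y i) * j (y i')) • (ExteriorAlgebra.ι C (e i) * ExteriorAlgebra.ι C (e i')) := by
          have := map_mono e (fun i => j (y i)) FV he [i, i']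
          simpa [mono] using this
        rw [eig_pow h1, ← map_mul, ← map_pow, hz2, map_pow, hjq]⟩
    have e5 : mulBy M U (ExteriorAlgebra.ι C (e i) * ExteriorAlgebra.ι C (e i'))
        (x ⊗ₜ[C] (u ⊗ₜ[C] mono C e l')) = x ⊗ₜ[C] (u ⊗ₜ[C] mono C e (l' ++ [i, i'])) := by
      unfold mulBy
      rw [TensorProduct.map_tmul, TensorProduct.map_tmul, LinearMap.id_apply, LinearMap.id_apply,
        LinearMap.mulRight_apply, mono_append]
      simp [mono]
    rw [e5] at hmul
    rcases mono_perm (C := C) e hperm with h | h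
    · rw [h]; exact hmul
    · rw [h, TensorProduct.tmul_neg, TensorProduct.tmul_neg]
      exact known_neg _ hmul

theorem norm_prod_sq {ι : Type*} (ψ : K →+* ℂ) (y : ι → K) (hy : ∀ i, IsWeil q 1 (y i))
    (l : List ι) : ‖ψ ((l.map y).prod)‖ ^ 2 = (q : ℝ) ^ l.length := by
  induction l with
  | nil => simp
  | cons i l ih =>
    rw [List.map_cons, List.prod_cons, map_mul, norm_mul, mul_pow, ih, (hy i).2 ψ,
      List.length_cons, ← pow_add, add_comm]

/-- MAIN THEOREM -/
theorem main [IsAlgClosed C] {p f : ℕ} (hp : p.Prime) (hf : f ≠ 0) (hq : q = p ^ f)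
    (hv : v (q : K) = 1) [Module.Finite C M] {κ ι : Type*}
    (u : Module.Basis κ C U) (a : κ → K) (hu : ∀ k, FU (u k) = j (a k) • u k)
    (e : Module.Basis ι C V) (y : ι → K) (he : ∀ i, FV (e i) = j (y i) • e i)
    (hz : ∀ z, FM.HasEigenvalue z →
      ∃ x : K, j x = z ∧ IsWeil q w x ∧ ∀ i, ip v w x 1 (y i) = 0)
    (ha : ∀ k, IsWeil q b (a k)) (hN : (b : ℚ) ^ 2 ≤ N ∨ ∀ k, ip v b (a k) b (a k) ≤ N)
    (hy : ∀ i, IsWeil q 1 (y i)) (hyc : ∀ i, c ≤ ip v 1 (y i) 1 (y i))
    (O1 : ∀ i i', Sim (y i * y i') (q : K) ∨ 0 ≤ ip v 1 (y i) 1 (y i'))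
    (m : ℕ) (hm : Even m) (x : M ⊗[C] (U ⊗[C] ExteriorAlgebra C V))
    (hx : IsTate q m (frob FM FU FV) x) : Known q w b N c FM FU FV x := by
  have hq0 : q ≠ 0 := by rw [hq]; exact pow_ne_zero _ hp.ne_zero
  have hq1 : 1 < q := by rw [hq]; exact Nat.one_lt_pow hf hp.one_lt
  have hjq : j (q : K) = (q : C) := map_natCast j q
  have hN : ∀ k, ip v b (a k) b (a k) ≤ N := by
    intro k
    rcases hN with h | h
    · exact le_trans (ip_le_sq v hq0 hv (ha k)) h
    · exact h k
  obtain ⟨n, hn, hx⟩ := hx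
  obtain ⟨B, hB⟩ := exists_mono_basis e
  choose lst hlst using hB
  have hfr : ∀ k, frobU FU FV ((u.tensorProduct B) k) =
      (j (a k.1 * ((lst k.2).map y).prod)) • (u.tensorProduct B) k := by
    rintro ⟨k1, k2⟩
    have hfU : (ExteriorAlgebra.map FV).toLinearMap (mono C e (lst k2)) =
        (j (((lst k2).map y).prod)) • mono C e (lst k2) := by
      rw [j_prod]; exact map_mono e (fun i => j (y i)) FV he (lst k2)
    rw [Module.Basis.tensorProduct_apply, hlst k2]
    unfold frobU
    rw [TensorProduct.map_tmul, hu, hfU, TensorProduct.tmul_smul, ← TensorProduct.smul_tmul',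
      smul_smul, mul_comm, ← map_mul]
  obtain ⟨s, hs, hs2⟩ := decomp FM (frobU FU FV) (u.tensorProduct B) _ hfr (2 * n) _ x hx
  rw [← hs]
  apply known_sum
  rintro ⟨k1, k2⟩ -
  change Known q w b N c FM FU FV (s (k1, k2) ⊗ₜ[C] (u.tensorProduct B) (k1, k2))
  by_cases h0 : s (k1, k2) = 0
  · rw [h0, TensorProduct.zero_tmul]; exact known_zero
  have hrel := hs2 (k1, k2)
  simp only at hrel
  rw [Module.Basis.tensorProduct_apply, hlst k2]
  -- the weight
  have hw : m = w + b + (lst k2).length := by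
    have ha0 : a k1 * ((lst k2).map y).prod ≠ 0 := by
      apply mul_ne_zero ((ha k1).ne_zero hq0)
      apply List.prod_ne_zero
      intro h
      obtain ⟨i, -, hi⟩ := List.mem_map.mp h
      exact (hy i).ne_zero hq0 hi
    have hja0 : j (a k1 * ((lst k2).map y).prod) ≠ 0 := (map_ne_zero j).mpr ha0
    have hFx : (FM ^ (2 * n)) (s (k1, k2)) =
        ((q : C) ^ (m * n) / (j (a k1 * ((lst k2).map y).prod)) ^ (2 * n)) • s (k1, k2) := by
      rw [div_eq_inv_mul, mul_smul, ← hrel, smul_smul, inv_mul_cancel₀ (pow_ne_zero _ hja0),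
        one_smul]
    obtain ⟨z', hzE, hzn⟩ := exists_eig FM (2 * n) _ h0 _ hFx
    obtain ⟨z, rfl, hzW, hzO⟩ := hz z' hzE
    have hzal : (z * (a k1 * ((lst k2).map y).prod)) ^ (2 * n) = (q : K) ^ (m * n) := by
      apply j.injective
      rw [map_pow, map_mul, mul_pow, hzn, div_mul_cancel₀ _ (pow_ne_zero _ hja0), map_pow, hjq]
    obtain ⟨ψ⟩ := exists_emb K
    have hn1 : ‖ψ (z * (a k1 * ((lst k2).map y).prod))‖ ^ 2 =
        (q : ℝ) ^ (w + b + (lst k2).length) := by
      rw [map_mul, map_mul, norm_mul, norm_mul, mul_pow, mul_pow, hzW.2 ψ, (ha k1).2 ψ,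
        norm_prod_sq ψ y hy, ← pow_add, ← pow_add]
      congr 1; ring
    have hn2 := congrArg (fun t => ‖ψ t‖) hzal
    simp only [map_pow, map_natCast] at hn2
    rw [norm_pow, pow_mul, hn1, norm_pow, Complex.norm_natCast, ← pow_mul] at hn2
    have hn3 : q ^ ((w + b + (lst k2).length) * n) = q ^ (m * n) := by exact_mod_cast hn2
    have hn4 := Nat.pow_right_injective hq1 hn3
    exact (Nat.eq_of_mul_eq_mul_right hn hn4).symm
  rw [hw] at hrel hm
  exact known_pure v j hp hq hv e y he hz hy hyc O1 (u k1) (a k1) (hu k1) (ha k1) (hN k1) _ h0 _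
    (lst k2) rfl hm n hn hrel

end main

end Pool.Agent.H61.SB
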